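import Pool.Agent.Lib.helper26.RSet

namespace Pool.Agent.Results.MP_3b082f_pr.Fails
open Pool.Agent.Lib.helper26.RSet MeasureTheory Metric Finset
open scoped Pointwise

/-- for some `n` and `ε > 0` there is no `(1+ε)`-isomorphic copy of `ℓ₁ⁿ` in `E` -/
def BConvex (E : Type) [NormedAddCommGroup E] [NormedSpace ℝ E] : Prop :=
  ∃ (n : ℕ) (ε : ℝ), 0 < ε ∧ ¬ ∃ x : Fin n → E, ∀ a : Fin n → ℝ,
    ‖∑ i, a i • x i‖ ≤ ∑ i, |a i| ∧ ∑ i, |a i| ≤ (1 + ε) * ‖∑ i, a i • x i‖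

theorem result : ∃ (E : Type) (_ : NormedAddCommGroup E) (_ : InnerProductSpace ℝ E)
    (_ : CompleteSpace E) (Ω : Type) (_ : MeasurableSpace Ω) (P : Measure Ω)
    (Ψ : ℕ → Ω → Set E) (U : Set E), BConvex E ∧ IsProbabilityMeasure P ∧ RandomSets P Ψ U ∧
      IsCompact U ∧ ∀ ω, ∀ N : ℕ, 8 ≤ N →
        1 / 4 ≤ hausdorffEDist ((N : ℝ)⁻¹ • ∑ i ∈ range N, Ψ i ω) U := by
  refine ⟨X, _, _, inferInstance, Ω, _, P, Ψ, U, ⟨2, 1 / 4, by norm_num, fun ⟨x, h⟩ => ?_⟩, inferInstance, random, compact, far⟩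
  have a := (h ![1, 0]).1
  have b := (h ![0, 1]).1
  have c := (h ![1, 1]).2
  have d := (h ![1, -1]).2
  simp only [Fin.sum_univ_two, Matrix.cons_val_zero, Matrix.cons_val_one, one_smul, zero_smul,
    add_zero, zero_add, abs_one, abs_zero, neg_smul, abs_neg, ← sub_eq_add_neg] at a b c d
  nlinarith [parallelogram_law_with_norm ℝ (x 0) (x 1), norm_nonneg (x 0), norm_nonneg (x 1)]

end Pool.Agent.Results.MP_3b082f_pr.Fails
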